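import Pool.Agent.R550.BD.Final

/-!
# Computing the broadcast dimension of a graph is NP-hard
-/

namespace Pool.Agent.Results.MP_307b22_lc.BroadcastDimensionHard

open Pool.Agent.NPC Pool.Agent.R550.GB Pool.Agent.R550.BD

/-- Given a graph `G` (by adjacency lists) and a number `k`, it is NP-hard to decide whether
`bdim(G) ≤ k`. -/
theorem result : NPHardP (fun x : List (List ℕ) × ℕ => bdim (graph x.1) ≤ x.2) :=
  hard.toNPHardP

end Pool.Agent.Results.MP_307b22_lc.BroadcastDimensionHard
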